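import Pool.Agent.H867R4.NCount
import Pool.Agent.H867R4.NLower

/-!
# The discrepancy of deterministic machines with several heads and a memory
-/

set_option autoImplicit false

open Finset

namespace Pool.Agent.TH706.RM

open Pool.Agent.H541R2 (rd mv mv_le le_mv gsign mu mu_nonneg mu_lt_one gip_disc gsign_abs theLang)
open Pool.Agent.H867R4 (Code exists_code Out out_of_block exists_row W_mem rd_out len_eq)

/-- A deterministic machine with `k` two-way heads and the memory contents `St`: depending on the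
time, the contents of the memory and the symbols under the heads, it replaces the contents of the
memory and moves the heads. Its answer is read from the contents of the memory. -/
structure DMach (k : ℕ) (St : Type) where
  δ : ℕ → St → (Fin k → Bool × Option (Fin 4)) → St × (Fin k → Fin 3)
  s₀ : St
  out : St → Bool

variable {k : ℕ} {St Q : Type}

/-- the configuration after the step at time `t` -/
def DMach.step (M : DMach k St) (w : List (Fin 4)) (t : ℕ) (c : St × (Fin k → ℕ)) :
    St × (Fin k → ℕ) :=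
  ((M.δ t c.1 (fun i => rd w (c.2 i))).1,
    fun i => mv w.length ((M.δ t c.1 (fun i => rd w (c.2 i))).2 i) (c.2 i))

/-- the configuration after `m` steps from `c` at time `t` -/
def DMach.run (M : DMach k St) (w : List (Fin 4)) (t : ℕ) (c : St × (Fin k → ℕ)) :
    ℕ → St × (Fin k → ℕ)
  | 0 => c
  | m + 1 => M.step w (t + m) (M.run w t c m)

/-- the answer after `T` steps -/
def DMach.ans (M : DMach k St) (w : List (Fin 4)) (T : ℕ) : Bool :=
  M.out (M.run w 0 (M.s₀, fun _ => 0) T).1

theorem run_add (M : DMach k St) (w : List (Fin 4)) (t : ℕ) (c : St × (Fin k → ℕ)) (a : ℕ) :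
    ∀ b, M.run w t c (a + b) = M.run w (t + a) (M.run w t c a) b := by
  intro b
  induction b with
  | zero => rfl
  | succ b ih =>
    show M.step w (t + (a + b)) (M.run w t c (a + b)) = M.step w (t + a + b) _
    rw [ih, Nat.add_assoc]

theorem run_pos (M : DMach k St) (w : List (Fin 4)) (t : ℕ) (c : St × (Fin k → ℕ))
    (hc : ∀ i, c.2 i ≤ w.length + 1) : ∀ m i, (M.run w t c m).2 i ≤ c.2 i + m ∧
      c.2 i ≤ (M.run w t c m).2 i + m ∧ (M.run w t c m).2 i ≤ w.length + 1 := by
  intro m
  induction m with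
  | zero => intro i; exact ⟨le_rfl, le_rfl, hc i⟩
  | succ m ih =>
    intro i
    obtain ⟨h1, h2, h3⟩ := ih i
    have e : (M.run w t c (m + 1)).2 i = mv w.length
        ((M.δ (t + m) (M.run w t c m).1 (fun i => rd w ((M.run w t c m).2 i))).2 i)
        ((M.run w t c m).2 i) := rfl
    rw [e]
    obtain ⟨d, hd⟩ : ∃ d, d = (M.δ (t + m) (M.run w t c m).1
      (fun i => rd w ((M.run w t c m).2 i))).2 i := ⟨_, rfl⟩
    rw [← hd]
    unfold mv
    split_ifs <;> omega

/-- In a short interval of time some row is not read. -/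
theorem blind (C : Code Q) (M : DMach k St) {N : ℕ} (t : ℕ) (c : St × (Fin k → ℕ))
    (hc : ∀ b : Fin (3 * k + 1) → Fin N → Bool, ∀ i, c.2 i ≤ (C.W b).length + 1) :
    ∃ r : Fin (3 * k + 1), ∀ b b' : Fin (3 * k + 1) → Fin N → Bool, (∀ j, j ≠ r → b j = b' j) →
      ∀ m ≤ N * (C.x₁.length + 1), M.run (C.W b) t c m = M.run (C.W b') t c m := by
  obtain ⟨D, hD⟩ : ∃ D, D = N * (C.x₁.length + 1) + 1 := ⟨_, rfl⟩
  have hDpos : 0 < D := by omega
  obtain ⟨r, hr⟩ := exists_row (fun (i : Fin k) (e : Fin 3) => c.2 i / D + e.val - 1)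
  refine ⟨r, fun b b' hbb => ?_⟩
  have hlen : (C.W b).length = (C.W b').length := by
    have h1 := C.W_length b
    have h2 := C.W_length b'
    omega
  intro m
  induction m with
  | zero => intro _; rfl
  | succ m ih =>
    intro hm
    have ih' := ih (by omega)
    have hpos := run_pos M (C.W b) t c (hc b) m
    have hrd : ∀ i, rd (C.W b) ((M.run (C.W b) t c m).2 i) =
        rd (C.W b') ((M.run (C.W b) t c m).2 i) := by
      intro i
      obtain ⟨a1, a2, -⟩ := hpos i
      have hblk : (M.run (C.W b) t c m).2 i / D ≠ r.val + 1 := by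
        intro hblk
        have e0 := hr i 0
        have e1 := hr i 1
        have e2 := hr i 2
        simp only [Fin.val_zero, Fin.val_one, Fin.val_two] at e0 e1 e2
        have hq1 : (M.run (C.W b) t c m).2 i / D ≤ c.2 i / D + 1 := by
          calc (M.run (C.W b) t c m).2 i / D ≤ (c.2 i + D) / D := Nat.div_le_div_right (by omega)
            _ = c.2 i / D + 1 := Nat.add_div_right _ hDpos
        have hq2 : c.2 i / D ≤ (M.run (C.W b) t c m).2 i / D + 1 := by
          calc c.2 i / D ≤ ((M.run (C.W b) t c m).2 i + D) / D := Nat.div_le_div_right (by omega)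
            _ = (M.run (C.W b) t c m).2 i / D + 1 := Nat.add_div_right _ hDpos
        omega
      rw [hD] at hblk
      have h1 := out_of_block C b r hblk
      generalize (M.run (C.W b) t c m).2 i = p at h1 ⊢
      obtain ⟨h2, h3⟩ := C.U_congr b b' r hbb
      rw [C.W_split b r, C.W_split b' r, ← h2, ← h3]
      exact rd_out (C.U_ne b r) (by rw [C.zone_length, C.zone_length]; simp) h1
    show M.step (C.W b) (t + m) (M.run (C.W b) t c m) =
      M.step (C.W b') (t + m) (M.run (C.W b') t c m)
    rw [← ih']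
    have e : (fun i => rd (C.W b) ((M.run (C.W b) t c m).2 i)) =
        fun i => rd (C.W b') ((M.run (C.W b) t c m).2 i) := funext hrd
    unfold DMach.step
    rw [e, hlen]

/-- The configurations. -/
noncomputable def cf (k : ℕ) (St : Type) [Fintype St] (n : ℕ) : Finset (St × (Fin k → ℕ)) :=
  (univ : Finset St) ×ˢ Fintype.piFinset (fun _ : Fin k => Finset.range (n + 2))

theorem card_cf (k : ℕ) (St : Type) [Fintype St] (n : ℕ) :
    (cf k St n).card = Fintype.card St * (n + 2) ^ k := by
  unfold cf
  simp [Finset.card_product]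

theorem mem_cf [Fintype St] {n : ℕ} {c : St × (Fin k → ℕ)} (h : ∀ i, c.2 i ≤ n + 1) :
    c ∈ cf k St n := by
  unfold cf
  simp only [Finset.mem_product, Finset.mem_univ, Fintype.mem_piFinset, Finset.mem_range, true_and]
  exact fun i => by have := h i; omega

open Classical in
/-- **Discrepancy.** -/
theorem disc [Fintype St] (C : Code Q) {N n : ℕ}
    (hn : ∀ b : Fin (3 * k + 1) → Fin N → Bool, (C.W b).length = n)
    (M : DMach k St) (o : St → ℝ) (ho : ∀ s, |o s| ≤ 1) :
    ∀ (R T : ℕ), T ≤ R * (N * (C.x₁.length + 1)) → ∀ (t : ℕ) (c : St × (Fin k → ℕ)),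
      (∀ i, c.2 i ≤ n + 1) → ∀ φ : Fin (3 * k + 1) → (Fin (3 * k + 1) → Fin N → Bool) → ℝ,
      (∀ i x, |φ i x| ≤ 1) → (∀ i x y, (∀ j, j ≠ i → x j = y j) → φ i x = φ i y) →
      |∑ b : Fin (3 * k + 1) → Fin N → Bool, gsign univ b * (∏ i, φ i b) *
        o (M.run (C.W b) t c T).1| ≤
        ((cf k St n).card : ℝ) ^ R * ((2 ^ N : ℝ) ^ (3 * k + 1) * (mu (3 * k)) ^ N) := by
  intro R
  induction R with
  | zero =>
    intro T hT t c _ φ h1 h2
    have hT0 : T = 0 := by omega
    subst hT0
    have key := gip_disc (3 * k) N univ φ h1 h2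
    rw [Finset.card_univ, Fintype.card_fin] at key
    have e : ∑ b : Fin (3 * k + 1) → Fin N → Bool, gsign univ b * (∏ i, φ i b) *
        o (M.run (C.W b) t c 0).1 = (∑ b : Fin (3 * k + 1) → Fin N → Bool,
          gsign univ b * ∏ i, φ i b) * o c.1 := by
      rw [Finset.sum_mul]
      rfl
    rw [e, abs_mul, pow_zero, one_mul]
    calc |∑ b : Fin (3 * k + 1) → Fin N → Bool, gsign univ b * ∏ i, φ i b| * |o c.1| ≤
          |∑ b : Fin (3 * k + 1) → Fin N → Bool, gsign univ b * ∏ i, φ i b| * 1 :=
          mul_le_mul_of_nonneg_left (ho _) (abs_nonneg _)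
      _ ≤ _ := by rw [mul_one]; exact key
  | succ R ih =>
    intro T hT t c hc φ h1 h2
    obtain ⟨ℓ, hℓ⟩ : ∃ ℓ, ℓ = N * (C.x₁.length + 1) := ⟨_, rfl⟩
    obtain ⟨m, hm⟩ : ∃ m, m = min T ℓ := ⟨_, rfl⟩
    obtain ⟨T', hT'⟩ : ∃ T', T' = T - m := ⟨_, rfl⟩
    have hTm : T = m + T' := by omega
    have hT'R : T' ≤ R * ℓ := by
      rw [← hℓ] at hT
      have e : (R + 1) * ℓ = R * ℓ + ℓ := by ring
      omega
    rw [hℓ] at hT'R
    have hmℓ : m ≤ N * (C.x₁.length + 1) := by omega
    obtain ⟨r, hr⟩ := blind C M (N := N) t c (fun b i => by rw [hn b]; exact hc i)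
    have hcf : ∀ b : Fin (3 * k + 1) → Fin N → Bool, M.run (C.W b) t c m ∈ cf k St n := by
      intro b
      apply mem_cf
      intro i
      have := (run_pos M (C.W b) t c (fun i => by rw [hn b]; exact hc i) m i).2.2
      rwa [hn b] at this
    -- split by the configuration at time `t + m`
    have e1 : ∀ b : Fin (3 * k + 1) → Fin N → Bool, o (M.run (C.W b) t c T).1 = ∑ d ∈ cf k St n,
        (if M.run (C.W b) t c m = d then (1 : ℝ) else 0) * o (M.run (C.W b) (t + m) d T').1 := by
      intro b
      rw [hTm, run_add]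
      simp only [ite_mul, one_mul, zero_mul]
      rw [Finset.sum_ite_eq, if_pos (hcf b)]
    have e2 : ∑ b : Fin (3 * k + 1) → Fin N → Bool, gsign univ b * (∏ i, φ i b) *
        o (M.run (C.W b) t c T).1 = ∑ d ∈ cf k St n,
        ∑ b : Fin (3 * k + 1) → Fin N → Bool, gsign univ b *
          (∏ i, (φ i b * (if i = r then (if M.run (C.W b) t c m = d then (1 : ℝ) else 0) else 1))) *
          o (M.run (C.W b) (t + m) d T').1 := by
      rw [Finset.sum_comm]
      refine Finset.sum_congr rfl fun b _ => ?_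
      rw [e1, Finset.mul_sum]
      refine Finset.sum_congr rfl fun d _ => ?_
      rw [Finset.prod_mul_distrib, Finset.prod_ite_eq' univ r, if_pos (Finset.mem_univ _)]
      ring
    rw [e2]
    refine (Finset.abs_sum_le_sum_abs _ _).trans ?_
    have e3 : ∀ d ∈ cf k St n, |∑ b : Fin (3 * k + 1) → Fin N → Bool, gsign univ b *
          (∏ i, (φ i b * (if i = r then (if M.run (C.W b) t c m = d then (1 : ℝ) else 0) else 1))) *
          o (M.run (C.W b) (t + m) d T').1| ≤
        ((cf k St n).card : ℝ) ^ R * ((2 ^ N : ℝ) ^ (3 * k + 1) * (mu (3 * k)) ^ N) := by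
      intro d hd
      have hd' : ∀ i, d.2 i ≤ n + 1 := by
        unfold cf at hd
        simp only [Finset.mem_product, Finset.mem_univ, Fintype.mem_piFinset, Finset.mem_range,
          true_and] at hd
        exact fun i => by have := hd i; omega
      refine ih T' hT'R (t + m) d hd' (fun i b => φ i b * (if i = r then
        (if M.run (C.W b) t c m = d then (1 : ℝ) else 0) else 1)) ?_ ?_
      · intro i x
        rw [abs_mul]
        have h3 : |(if i = r then (if M.run (C.W x) t c m = d then (1 : ℝ) else 0) else 1)| ≤ 1 := by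
          split_ifs <;> simp
        calc |φ i x| * _ ≤ 1 * 1 := mul_le_mul (h1 i x) h3 (abs_nonneg _) zero_le_one
          _ = 1 := one_mul 1
      · intro i x y hxy
        show φ i x * _ = φ i y * _
        rw [h2 i x y hxy]
        by_cases hi : i = r
        · subst hi
          rw [if_pos rfl, if_pos rfl, hr x y hxy m hmℓ]
        · rw [if_neg hi, if_neg hi]
    refine (Finset.sum_le_sum e3).trans (le_of_eq ?_)
    rw [Finset.sum_const, nsmul_eq_mul]
    ring

end Pool.Agent.TH706.RM
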