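import Pool.Agent.TH706.RM.Disc

/-!
# Randomised machines with several heads and a memory
-/

set_option autoImplicit false

open Finset

namespace Pool.Agent.TH706.RM

open Pool.Agent.H541R2 (rd mv mv_le le_mv gsign mu mu_nonneg mu_lt_one gip_disc gsign_abs theLang)
open Pool.Agent.H867R4 (Code exists_code W_mem)

/-- the number of matrices -/
noncomputable def tot (k N : ℕ) : ℝ := (2 ^ N : ℝ) ^ (3 * k + 1)

theorem tot_eq (k N : ℕ) : tot k N = (Fintype.card (Fin (3 * k + 1) → Fin N → Bool) : ℝ) := by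
  simp [tot]

theorem tot_pos (k N : ℕ) : 0 < tot k N := by unfold tot; positivity

/-- **The correlation of one machine.** -/
theorem key (k : ℕ) (C : Code Unit) : ∃ c : ℝ, 0 < c ∧ ∃ N₀ : ℕ, ∀ N ≥ N₀, ∀ n : ℕ,
    n + 1 = (3 * k + 2) * (N * (C.x₁.length + 1) + 1) →
    6 ≤ c * n ∧ ∀ (St : Type) [Fintype St] [Nonempty St] (T : ℕ),
      ((T : ℝ) + n) * (Real.log (Fintype.card St) + Real.log n) ≤ c * (n : ℝ) ^ 2 →
      ∀ (M : DMach k St) (o : St → ℝ), (∀ s, |o s| ≤ 1) →
        |∑ b : Fin (3 * k + 1) → Fin N → Bool, gsign univ b *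
          o (M.run (C.W b) 0 (M.s₀, fun _ => 0) T).1| ≤ tot k N * Real.exp (-2 * (c * n)) := by
  obtain ⟨V, hV⟩ : ∃ V, V = C.x₁.length + 1 := ⟨_, rfl⟩
  have hV1 : 1 ≤ V := by omega
  obtain ⟨μ', hμ'⟩ : ∃ μ' : ℝ, μ' = max (mu (3 * k)) (1 / 2) := ⟨_, rfl⟩
  have hμ'1 : μ' < 1 := by rw [hμ']; exact max_lt (mu_lt_one _) (by norm_num)
  have hμ'0 : 0 < μ' := by rw [hμ']; exact lt_of_lt_of_le (by norm_num) (le_max_right _ _)
  obtain ⟨lam, hlam⟩ : ∃ lam : ℝ, lam = -Real.log μ' := ⟨_, rfl⟩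
  have hlam0 : 0 < lam := by
    have := Real.log_neg hμ'0 hμ'1
    linarith
  obtain ⟨C4, hC4⟩ : ∃ C4 : ℝ, C4 = (3 * k + 2) * (V + 1) := ⟨_, rfl⟩
  have hC40 : 0 < C4 := by rw [hC4]; positivity
  obtain ⟨G, hG⟩ : ∃ G : ℕ, G = 2 * (3 * k + 2) := ⟨_, rfl⟩
  obtain ⟨C5, hC5⟩ : ∃ C5 : ℝ, C5 = G * (2 * k + 1) + 2 := ⟨_, rfl⟩
  have hC50 : 0 < C5 := by rw [hC5]; positivity
  obtain ⟨c, hc⟩ : ∃ c : ℝ, c = lam / (C4 * C5) := ⟨_, rfl⟩
  have hc0 : 0 < c := by rw [hc]; positivity
  obtain ⟨N1, hN1⟩ := exists_nat_ge (6 / c)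
  refine ⟨c, hc0, N1 + 2, fun N hN n hn => ?_⟩
  rw [← hV] at hn
  have hNn : N ≤ n := by
    have h1 : N * V + 1 ≤ (3 * k + 2) * (N * V + 1) := Nat.le_mul_of_pos_left _ (by omega)
    have h2 : N ≤ N * V := Nat.le_mul_of_pos_right _ (by omega)
    omega
  have hn2 : 2 ≤ n := by omega
  have hn2' : (2 : ℝ) ≤ n := by exact_mod_cast hn2
  have hn0 : (0 : ℝ) < n := by linarith
  have h6 : 6 ≤ c * n := by
    have h1 : (N1 : ℝ) ≤ n := by
      have : N1 ≤ n := by omega
      exact_mod_cast this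
    have h2 : 6 / c ≤ n := hN1.trans h1
    rw [div_le_iff₀ hc0] at h2
    linarith
  refine ⟨h6, fun St _ _ T hT M o ho => ?_⟩
  have hlen : ∀ b : Fin (3 * k + 1) → Fin N → Bool, (C.W b).length = n := by
    intro b
    have := C.W_length b
    rw [← hV] at this
    have e : (3 * k + 1 + 1) * (N * V + 1) = (3 * k + 2) * (N * V + 1) := by ring
    omega
  obtain ⟨ℓ, hℓ⟩ : ∃ ℓ, ℓ = N * V := ⟨_, rfl⟩
  have hℓ1 : 1 ≤ ℓ := by
    rw [hℓ]
    exact Nat.mul_pos (by omega) hV1
  obtain ⟨R, hR⟩ : ∃ R, R = T / ℓ + 1 := ⟨_, rfl⟩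
  have hTR : T ≤ R * (N * (C.x₁.length + 1)) := by
    rw [← hV, ← hℓ, hR, mul_comm]
    exact (Nat.lt_mul_div_succ T hℓ1).le
  have h1 := disc C hlen M o ho R T hTR 0 (M.s₀, fun _ => 0) (fun i => Nat.zero_le _)
    (fun _ _ => (1 : ℝ)) (by simp) (by simp)
  simp only [Finset.prod_const_one, mul_one] at h1
  refine h1.trans ?_
  -- numbers
  have hSt1 : 1 ≤ Fintype.card St := Fintype.card_pos
  have hSt : (1 : ℝ) ≤ Fintype.card St := by exact_mod_cast hSt1
  have hlogS : 0 ≤ Real.log (Fintype.card St) := Real.log_nonneg hSt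
  have hlogn : 0 ≤ Real.log n := Real.log_natCast_nonneg n
  obtain ⟨X, hX⟩ : ∃ X : ℝ, X = Real.log (Fintype.card St) + Real.log n := ⟨_, rfl⟩
  rw [← hX] at hT
  have hX0 : 0 ≤ X := by rw [hX]; exact add_nonneg hlogS hlogn
  have hK : ((cf k St n).card : ℝ) ≤ Real.exp ((2 * k + 1) * X) := by
    rw [card_cf]
    push_cast
    have h2 : (n : ℝ) + 2 ≤ n ^ 2 := by nlinarith
    have h3 : ((n : ℝ) + 2) ^ k ≤ (n ^ 2) ^ k := pow_le_pow_left₀ (by positivity) h2 k
    calc (Fintype.card St : ℝ) * ((n : ℝ) + 2) ^ k ≤ Fintype.card St * (n ^ 2) ^ k :=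
          mul_le_mul_of_nonneg_left h3 (by positivity)
      _ = Real.exp (Real.log (Fintype.card St) + 2 * k * Real.log n) := by
          rw [Real.exp_add, Real.exp_log (by linarith)]
          congr 1
          rw [← pow_mul, ← Real.exp_log hn0, ← Real.exp_nat_mul, Real.exp_log hn0]
          congr 1
          push_cast
          ring
      _ ≤ Real.exp ((2 * k + 1) * X) := by
          apply Real.exp_le_exp.2
          rw [hX]
          have h4 : 0 ≤ 2 * (k : ℝ) * Real.log (Fintype.card St) := by positivity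
          nlinarith
  have hGℓ : (n : ℝ) ≤ G * ℓ := by
    have h2 : n ≤ G * ℓ := by
      have h3 : (3 * k + 2) * (N * V + 1) ≤ (3 * k + 2) * (N * V + N * V) :=
        Nat.mul_le_mul_left _ (by omega)
      have h4 : (3 * k + 2) * (N * V + N * V) = G * ℓ := by rw [hG, hℓ]; ring
      omega
    exact_mod_cast h2
  have hℓ0 : (0 : ℝ) < ℓ := by exact_mod_cast hℓ1
  have hRle : (R : ℝ) * n ≤ G * (T + n) := by
    have h2 : ((T / ℓ : ℕ) : ℝ) ≤ (T : ℝ) / ℓ := Nat.cast_div_le
    have h3 : (T : ℝ) / ℓ * n ≤ G * T := by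
      rw [div_mul_eq_mul_div, div_le_iff₀ hℓ0]
      have : (T : ℝ) * n ≤ T * (G * ℓ) := mul_le_mul_of_nonneg_left hGℓ (by positivity)
      linarith
    have hG1 : (1 : ℝ) ≤ G := by
      have : 1 ≤ G := by omega
      exact_mod_cast this
    rw [hR]
    push_cast
    calc (((T / ℓ : ℕ) : ℝ) + 1) * n = ((T / ℓ : ℕ) : ℝ) * n + n := by ring
      _ ≤ (T : ℝ) / ℓ * n + n := by
          have := mul_le_mul_of_nonneg_right h2 hn0.le
          linarith
      _ ≤ G * T + G * n := by
          have := mul_le_mul_of_nonneg_right hG1 hn0.le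
          linarith
      _ = G * (T + n) := by ring
  have hKR : ((cf k St n).card : ℝ) ^ R ≤ Real.exp (G * (2 * k + 1) * (c * n)) := by
    calc ((cf k St n).card : ℝ) ^ R ≤ (Real.exp ((2 * k + 1) * X)) ^ R :=
          pow_le_pow_left₀ (Nat.cast_nonneg _) hK R
      _ = Real.exp (R * ((2 * k + 1) * X)) := by rw [← Real.exp_nat_mul]
      _ ≤ Real.exp (G * (2 * k + 1) * (c * n)) := by
          apply Real.exp_le_exp.2
          have h2 : (R : ℝ) * X * n ≤ G * (c * n ^ 2) := by
            calc (R : ℝ) * X * n = (R * n) * X := by ring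
              _ ≤ (G * (T + n)) * X := mul_le_mul_of_nonneg_right hRle hX0
              _ = G * ((T + n) * X) := by ring
              _ ≤ G * (c * n ^ 2) := mul_le_mul_of_nonneg_left hT (by positivity)
          have h3 : (R : ℝ) * X ≤ G * (c * n) := by
            have h4 : (R : ℝ) * X * n ≤ G * (c * n) * n := by
              calc (R : ℝ) * X * n ≤ G * (c * n ^ 2) := h2
                _ = G * (c * n) * n := by ring
            exact le_of_mul_le_mul_right h4 hn0
          calc (R : ℝ) * ((2 * k + 1) * X) = (2 * k + 1) * (R * X) := by ring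
            _ ≤ (2 * k + 1) * (G * (c * n)) := mul_le_mul_of_nonneg_left h3 (by positivity)
            _ = _ := by ring
  have hnC : (n : ℝ) ≤ C4 * N := by
    have h1 : (n : ℝ) + 1 = (3 * k + 2) * (N * V + 1) := by exact_mod_cast hn
    have h2 : (1 : ℝ) ≤ N := by
      have : 1 ≤ N := by omega
      exact_mod_cast this
    have h3 : (3 * (k : ℝ) + 2) * (N * V + 1) ≤ (3 * k + 2) * (N * V + N) := by gcongr
    have h4 : (3 * (k : ℝ) + 2) * (N * V + N) = C4 * N := by rw [hC4]; ring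
    linarith
  have hmu : (mu (3 * k)) ^ N ≤ Real.exp (-(C5 * (c * n))) := by
    have h2 : (mu (3 * k)) ^ N ≤ μ' ^ N :=
      pow_le_pow_left₀ (mu_nonneg _) (by rw [hμ']; exact le_max_left _ _) N
    refine h2.trans ?_
    have e2 : μ' = Real.exp (-lam) := by rw [hlam, neg_neg, Real.exp_log hμ'0]
    rw [e2, ← Real.exp_nat_mul]
    apply Real.exp_le_exp.2
    have h3 : C5 * (c * n) = lam * (n / C4) := by
      rw [hc]
      field_simp
    have h4 : (n : ℝ) / C4 ≤ N := by
      rw [div_le_iff₀ hC40]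
      linarith
    have h5 := mul_le_mul_of_nonneg_left h4 hlam0.le
    rw [h3]
    linarith
  have hT0 := tot_pos k N
  calc ((cf k St n).card : ℝ) ^ R * ((2 ^ N : ℝ) ^ (3 * k + 1) * (mu (3 * k)) ^ N) =
        tot k N * (((cf k St n).card : ℝ) ^ R * (mu (3 * k)) ^ N) := by unfold tot; ring
    _ ≤ tot k N * (Real.exp (G * (2 * k + 1) * (c * n)) * Real.exp (-(C5 * (c * n)))) := by
        apply mul_le_mul_of_nonneg_left _ hT0.le
        exact mul_le_mul hKR hmu (pow_nonneg (mu_nonneg _) _) (Real.exp_pos _).le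
    _ = tot k N * Real.exp (-2 * (c * n)) := by
        rw [← Real.exp_add, hC5]
        congr 2
        ring

open Classical in
/-- the number of machines in the family which are right on `w` -/
noncomputable def right {k : ℕ} {St Ω : Type} (L : Set (List (Fin 4))) (M : Ω → DMach k St)
    (w : List (Fin 4)) (T : ℕ) : ℕ :=
  Nat.card {ω // ((M ω).ans w T = true ↔ w ∈ L)}

/-- the number of machines in the family which accept `w` -/
noncomputable def acc {k : ℕ} {St Ω : Type} (M : Ω → DMach k St) (w : List (Fin 4)) (T : ℕ) : ℕ :=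
  Nat.card {ω // (M ω).ans w T = true}

theorem gs {g N : ℕ} (b : Fin g → Fin N → Bool) : gsign univ b = 1 ∨ gsign univ b = -1 := by
  have := gsign_abs univ b
  exact eq_or_eq_neg_of_abs_eq this

/-- **Random machines.** -/
theorem main (k : ℕ) : ∃ a b : ℕ, 0 < a ∧ ∃ c : ℝ, 0 < c ∧ ∃ N₀ : ℕ, ∀ N ≥ N₀, ∀ n : ℕ,
    n = a * N + b → ∀ (St : Type) [Fintype St] (T : ℕ),
      ((T : ℝ) + n) * (Real.log (Fintype.card St) + Real.log n) ≤ c * (n : ℝ) ^ 2 →
      ∀ (Ω : Type) [Fintype Ω] (M : Ω → DMach k St), 0 < Fintype.card Ω →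
        (∃ w : List (Fin 4), w.length = n ∧ (right theLang M w T : ℝ) ≤
          (1 / 2 + Real.exp (-(c * n))) * Fintype.card Ω) ∧
        ((Fintype.card Ω : ℝ) ≤ Real.exp (c * n) → ∀ θ : ℕ,
          ∃ w : List (Fin 4), w.length = n ∧ ¬ (w ∈ theLang ↔ θ ≤ acc M w T)) := by
  classical
  obtain ⟨C⟩ := exists_code Unit
  obtain ⟨c, hc, N₀, hkey⟩ := key k C
  refine ⟨(3 * k + 2) * (C.x₁.length + 1), 3 * k + 1, by positivity, c, hc, N₀, ?_⟩
  intro N hN n hn St _ T hT Ω _ M hΩ
  obtain ⟨ω0⟩ : Nonempty Ω := Fintype.card_pos_iff.1 hΩ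
  have : Nonempty St := ⟨(M ω0).s₀⟩
  have hn1 : n + 1 = (3 * k + 2) * (N * (C.x₁.length + 1) + 1) := by rw [hn]; ring
  obtain ⟨h6, hcor⟩ := hkey N hN n hn1
  have hlen : ∀ b : Fin (3 * k + 1) → Fin N → Bool, (C.W b).length = n := by
    intro b
    have := C.W_length b
    have e : (3 * k + 1 + 1) * (N * (C.x₁.length + 1) + 1) =
      (3 * k + 2) * (N * (C.x₁.length + 1) + 1) := by ring
    omega
  have hmem : ∀ b : Fin (3 * k + 1) → Fin N → Bool, C.W b ∈ theLang ↔ gsign univ b = -1 :=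
    fun b => W_mem C b
  have hT0 := tot_pos k N
  have hΩ0 : (0 : ℝ) < Fintype.card Ω := by exact_mod_cast hΩ
  obtain ⟨ε, hε⟩ : ∃ ε : ℝ, ε = Real.exp (-2 * (c * n)) := ⟨_, rfl⟩
  have hε0 : 0 < ε := by rw [hε]; exact Real.exp_pos _
  have hone : ∀ (ω : Ω) (o : St → ℝ), (∀ s, |o s| ≤ 1) →
      |∑ b : Fin (3 * k + 1) → Fin N → Bool, gsign univ b *
        o ((M ω).run (C.W b) 0 ((M ω).s₀, fun _ => 0) T).1| ≤ tot k N * ε := by
    intro ω o ho
    rw [hε]
    exact hcor St T hT (M ω) o ho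
  constructor
  · by_contra hcon
    push Not at hcon
    -- sum over all matrices
    have h1 : ∑ _b : Fin (3 * k + 1) → Fin N → Bool,
        ((1 / 2 + Real.exp (-(c * n))) * Fintype.card Ω) <
        ∑ b : Fin (3 * k + 1) → Fin N → Bool, (right theLang M (C.W b) T : ℝ) := by
      apply Finset.sum_lt_sum_of_nonempty Finset.univ_nonempty
      intro b _
      exact hcon _ (hlen b)
    rw [Finset.sum_const, Finset.card_univ, nsmul_eq_mul, ← tot_eq] at h1
    have h2 : ∀ b : Fin (3 * k + 1) → Fin N → Bool, (right theLang M (C.W b) T : ℝ) =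
        ∑ ω, (1 / 2 + 1 / 2 * (gsign univ b *
          (if (M ω).out ((M ω).run (C.W b) 0 ((M ω).s₀, fun _ => 0) T).1 = true then (-1 : ℝ)
            else 1))) := by
      intro b
      unfold right
      rw [Nat.card_eq_fintype_card, Fintype.card_subtype, Finset.card_filter, Nat.cast_sum]
      refine Finset.sum_congr rfl fun ω _ => ?_
      rw [hmem]
      have e : (M ω).ans (C.W b) T =
        (M ω).out ((M ω).run (C.W b) 0 ((M ω).s₀, fun _ => 0) T).1 := rfl
      rw [e]
      rcases gs b with h | h <;> rw [h] <;>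
        by_cases ha : (M ω).out ((M ω).run (C.W b) 0 ((M ω).s₀, fun _ => 0) T).1 = true <;>
        simp [ha] <;> norm_num
    simp only [h2] at h1
    rw [Finset.sum_comm] at h1
    have h3 : ∀ ω, ∑ b : Fin (3 * k + 1) → Fin N → Bool, (1 / 2 + 1 / 2 * (gsign univ b *
          (if (M ω).out ((M ω).run (C.W b) 0 ((M ω).s₀, fun _ => 0) T).1 = true then (-1 : ℝ)
            else 1))) ≤ tot k N * (1 / 2 + 1 / 2 * ε) := by
      intro ω
      rw [Finset.sum_add_distrib, ← Finset.mul_sum, Finset.sum_const, Finset.card_univ,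
        nsmul_eq_mul, ← tot_eq]
      have h4 := (abs_le.1 (hone ω (fun s => if (M ω).out s = true then (-1 : ℝ) else 1)
        (by intro s; split_ifs <;> simp))).2
      linarith
    have h4 := Finset.sum_le_sum (s := (univ : Finset Ω)) (fun ω _ => h3 ω)
    rw [Finset.sum_const, Finset.card_univ, nsmul_eq_mul] at h4
    have h5 : ε ≤ Real.exp (-(c * n)) := by
      rw [hε]
      apply Real.exp_le_exp.2
      have : 0 ≤ c * n := by linarith
      linarith
    have h7 : (0 : ℝ) < Real.exp (-(c * n)) := Real.exp_pos _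
    have h8 : (Fintype.card Ω : ℝ) * (tot k N * (1 / 2 + 1 / 2 * ε)) ≤
        tot k N * ((1 / 2 + Real.exp (-(c * n))) * Fintype.card Ω) := by
      have h9 : 1 / 2 + 1 / 2 * ε ≤ 1 / 2 + Real.exp (-(c * n)) := by linarith
      calc (Fintype.card Ω : ℝ) * (tot k N * (1 / 2 + 1 / 2 * ε)) =
            (Fintype.card Ω * tot k N) * (1 / 2 + 1 / 2 * ε) := by ring
        _ ≤ (Fintype.card Ω * tot k N) * (1 / 2 + Real.exp (-(c * n))) :=
            mul_le_mul_of_nonneg_left h9 (by positivity)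
        _ = _ := by ring
    linarith
  · intro hΩe θ0
    by_contra hcon
    push Not at hcon
    -- the threshold may be assumed to be small
    have haccle : ∀ w, acc M w T ≤ Fintype.card Ω := by
      intro w
      unfold acc
      rw [Nat.card_eq_fintype_card]
      exact Fintype.card_subtype_le _
    obtain ⟨θ, hθ1, hθ2⟩ : ∃ θ : ℕ, θ ≤ Fintype.card Ω + 1 ∧
        ∀ b : Fin (3 * k + 1) → Fin N → Bool, gsign univ b = -1 ↔ θ ≤ acc M (C.W b) T := by
      refine ⟨min θ0 (Fintype.card Ω + 1), min_le_right _ _, fun b => ?_⟩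
      rw [← hmem b, hcon _ (hlen b)]
      have := haccle (C.W b)
      omega
    have h1 : tot k N * (1 / 2) ≤ ∑ b : Fin (3 * k + 1) → Fin N → Bool,
        gsign univ b * ((θ : ℝ) - 1 / 2 - acc M (C.W b) T) := by
      rw [tot_eq]
      have h2 : ∀ b : Fin (3 * k + 1) → Fin N → Bool, (1 / 2 : ℝ) ≤
          gsign univ b * ((θ : ℝ) - 1 / 2 - acc M (C.W b) T) := by
        intro b
        rcases gs b with h | h
        · have h3 : ¬ θ ≤ acc M (C.W b) T := by
            rw [← hθ2 b, h]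
            norm_num
          have h4 : acc M (C.W b) T + 1 ≤ θ := by omega
          have h5 : ((acc M (C.W b) T : ℕ) : ℝ) + 1 ≤ θ := by exact_mod_cast h4
          rw [h]
          linarith
        · have h3 : θ ≤ acc M (C.W b) T := (hθ2 b).1 h
          have h5 : (θ : ℝ) ≤ acc M (C.W b) T := by exact_mod_cast h3
          rw [h]
          linarith
      have h3 := Finset.sum_le_sum (s := (univ : Finset (Fin (3 * k + 1) → Fin N → Bool)))
        (fun b _ => h2 b)
      rw [Finset.sum_const, Finset.card_univ, nsmul_eq_mul] at h3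
      exact h3
    have h2 : ∑ b : Fin (3 * k + 1) → Fin N → Bool,
        gsign univ b * ((θ : ℝ) - 1 / 2 - acc M (C.W b) T) =
        ((θ : ℝ) - 1 / 2) * (∑ b : Fin (3 * k + 1) → Fin N → Bool, gsign univ b * 1) -
        ∑ ω, ∑ b : Fin (3 * k + 1) → Fin N → Bool, gsign univ b *
          (if (M ω).out ((M ω).run (C.W b) 0 ((M ω).s₀, fun _ => 0) T).1 = true then (1 : ℝ)
            else 0) := by
      rw [Finset.sum_comm, Finset.mul_sum, ← Finset.sum_sub_distrib]
      refine Finset.sum_congr rfl fun b _ => ?_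
      rw [← Finset.mul_sum]
      have h3 : (acc M (C.W b) T : ℝ) = ∑ ω, (if (M ω).out ((M ω).run (C.W b) 0
          ((M ω).s₀, fun _ => 0) T).1 = true then (1 : ℝ) else 0) := by
        unfold acc
        rw [Nat.card_eq_fintype_card, Fintype.card_subtype, Finset.sum_boole]
        rfl
      rw [h3]
      ring
    rw [h2] at h1
    have h3 := (abs_le.1 (hone ω0 (fun _ => 1) (by simp)))
    have h4 : ∀ ω, -(tot k N * ε) ≤ ∑ b : Fin (3 * k + 1) → Fin N → Bool, gsign univ b *
          (if (M ω).out ((M ω).run (C.W b) 0 ((M ω).s₀, fun _ => 0) T).1 = true then (1 : ℝ)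
            else 0) := fun ω =>
      (abs_le.1 (hone ω (fun s => if (M ω).out s = true then (1 : ℝ) else 0)
        (by intro s; split_ifs <;> simp))).1
    have h5 := Finset.sum_le_sum (s := (univ : Finset Ω)) (fun ω _ => h4 ω)
    rw [Finset.sum_const, Finset.card_univ, nsmul_eq_mul] at h5
    have hθr : (θ : ℝ) ≤ Fintype.card Ω + 1 := by exact_mod_cast hθ1
    have hTε : 0 < tot k N * ε := mul_pos hT0 hε0
    have h7 : ((θ : ℝ) - 1 / 2) * (∑ b : Fin (3 * k + 1) → Fin N → Bool, gsign univ b * 1) ≤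
        (Fintype.card Ω + 1) * (tot k N * ε) := by
      have h8 : |(θ : ℝ) - 1 / 2| ≤ Fintype.card Ω + 1 := by
        have : (0 : ℝ) ≤ θ := Nat.cast_nonneg _
        rw [abs_le]
        constructor <;> linarith
      calc ((θ : ℝ) - 1 / 2) * (∑ b : Fin (3 * k + 1) → Fin N → Bool, gsign univ b * 1) ≤
            |(θ : ℝ) - 1 / 2| * |∑ b : Fin (3 * k + 1) → Fin N → Bool, gsign univ b * 1| := by
              rw [← abs_mul]
              exact le_abs_self _
        _ ≤ (Fintype.card Ω + 1) * (tot k N * ε) :=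
            mul_le_mul h8 (hone ω0 (fun _ => 1) (by simp)) (abs_nonneg _) (by positivity)
    have h8 : tot k N * (1 / 2) ≤ tot k N * ((2 * Fintype.card Ω + 1) * ε) := by
      have e : tot k N * ((2 * Fintype.card Ω + 1) * ε) =
        (Fintype.card Ω + 1) * (tot k N * ε) + Fintype.card Ω * (tot k N * ε) := by ring
      rw [e]
      linarith
    have h9 := le_of_mul_le_mul_left h8 hT0
    have h10 : (2 * (Fintype.card Ω : ℝ) + 1) * ε ≤ 3 * Real.exp (-(c * n)) := by
      have h11 : (1 : ℝ) ≤ Real.exp (c * n) := Real.one_le_exp (by linarith)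
      calc (2 * (Fintype.card Ω : ℝ) + 1) * ε ≤ (3 * Real.exp (c * n)) * ε :=
            mul_le_mul_of_nonneg_right (by linarith) hε0.le
        _ = 3 * Real.exp (-(c * n)) := by
            rw [hε, mul_assoc, ← Real.exp_add]
            congr 2
            ring
    have h11 : Real.exp (-(c * n)) < 1 / 6 := by
      rw [Real.exp_neg, inv_lt_comm₀ (Real.exp_pos _) (by norm_num)]
      have := Real.add_one_le_exp (c * n)
      norm_num
      linarith
    linarith

end Pool.Agent.TH706.RM
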